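import Pool.Agent.Work.MP_88b7aa_gt.D.C799.F0
import Pool.Agent.Work.MP_88b7aa_gt.D.C799.F1
import Pool.Agent.Work.MP_88b7aa_gt.D.C799.F2
import Pool.Agent.Work.MP_88b7aa_gt.D.C799.F3
import Pool.Agent.Work.MP_88b7aa_gt.D.C799.F4
import Pool.Agent.Work.MP_88b7aa_gt.D.C799.F5
import Pool.Agent.Work.MP_88b7aa_gt.D.C799.F6

/-! The class is done. -/

set_option autoImplicit false

namespace Pool.Agent.Work.MP_88b7aa_gt.D.C799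

open Pool.Agent.Work.MP_88b7aa_gt.PQ
open Pool.Agent.Work.MP_88b7aa_gt.Kc

theorem g0 : CGood (KS (.ex 7) (.iv 9 0) (.iv 9 0)) H.k ⟨253600191109860, 0, 0, 0, 0, 8⟩ ⟨266562850258944, 0, 0, 2130303778816, 0, 0⟩ ⟨268693154037760, 0, 4260607557632, 0, 0, 0⟩ ⟨118412449677312, 0, -458168991744, 692093714432, 0, 0⟩ :=
  mC_good H_ok M0.k LB.nil LC.nil

theorem g1 : CGood (KS (.ex 7) (.iv 9 0) (.iv 9 0)) H.k ⟨253600191109860, 0, 0, 0, 0, 8⟩ ⟨270823457816576, 0, 0, 2130303778816, 0, 0⟩ ⟨266562850258944, 0, 2130303778816, 0, 0, 0⟩ ⟨121134720745472, 0, -260449501184, 730228326400, 0, 0⟩ :=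
  mC_good H_ok M1.k LB.nil LC.nil

theorem g2 : CGood (KS (.ex 7) (.iv 9 0) (.iv 9 0)) H.k ⟨253600191109860, 0, 0, 0, 0, 8⟩ ⟨270823457816576, 0, 0, 2130303778816, 0, 0⟩ ⟨268693154037760, 0, 4260607557632, 0, 0, 0⟩ ⟨120874271244288, 0, -520899002368, 730228326400, 0, 0⟩ :=
  mC_good H_ok M2.k LB.nil (LC.cons g1 LC.nil)

theorem g3 : CGood (KS (.ex 7) (.iv 9 0) (.iv 9 0)) H.k ⟨253600191109860, 0, 0, 0, 0, 8⟩ ⟨270823457816576, 0, 0, 2130303778816, 0, 0⟩ ⟨277214369153024, 0, 4260607557632, 0, 0, 0⟩ ⟨117381254873088, 0, -452825448448, 680660041728, 0, 0⟩ :=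
  mC_good H_ok M3.k LB.nil LC.nil

theorem g4 : CGood (KS (.ex 7) (.iv 9 0) (.iv 9 0)) H.k ⟨253600191109860, 0, 0, 0, 0, 8⟩ ⟨266562850258944, 0, 0, 2130303778816, 0, 0⟩ ⟨272953761595392, 0, 8521215115264, 0, 0, 0⟩ ⟨116472760238080, 0, -905650896896, 680660041728, 0, 0⟩ :=
  mC_good H_ok M4.k LB.nil (LC.cons g0 LC.nil)

theorem g5 : CGood (KS (.ex 7) (.iv 9 0) (.iv 9 0)) H.k ⟨253600191109860, 0, 0, 0, 0, 8⟩ ⟨273220049567744, 0, 0, 266287972352, 0, 0⟩ ⟨277214369153024, 0, 4260607557632, 0, 0, 0⟩ ⟨117306764034048, 0, -531183435776, 91016396800, 0, 0⟩ :=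
  mC_good H_ok M5.k LB.nil LC.nil

theorem g6 : CGood (KS (.ex 7) (.iv 9 0) (.iv 9 0)) H.k ⟨253600191109860, 0, 0, 0, 0, 8⟩ ⟨273752625512448, 0, 0, 266287972352, 0, 0⟩ ⟨277214369153024, 0, 4260607557632, 0, 0, 0⟩ ⟨122600378335232, 0, -486522486784, 86654320640, 0, 0⟩ :=
  mC_good H_ok M6.k LB.nil LC.nil

theorem g7 : CGood (KS (.ex 7) (.iv 9 0) (.iv 9 0)) H.k ⟨253600191109860, 0, 0, 0, 0, 8⟩ ⟨273220049567744, 0, 0, 266287972352, 0, 0⟩ ⟨272953761595392, 0, 8521215115264, 0, 0, 0⟩ ⟨117837947469824, 0, -1062366871552, 91016396800, 0, 0⟩ :=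
  mC_good H_ok M7.k LB.nil (LC.cons g5 LC.nil)

theorem g8 : CGood (KS (.ex 7) (.iv 9 0) (.iv 9 0)) H.k ⟨253600191109860, 0, 0, 0, 0, 8⟩ ⟨274551489429504, 0, 0, 532575944704, 0, 0⟩ ⟨277214369153024, 0, 4260607557632, 0, 0, 0⟩ ⟨123057221926912, 0, -498199429120, 175137357824, 0, 0⟩ :=
  mC_good H_ok M8.k LB.nil LC.nil

theorem g9 : CGood (KS (.ex 7) (.iv 9 0) (.iv 9 0)) H.k ⟨253600191109860, 0, 0, 0, 0, 8⟩ ⟨273486337540096, 0, 0, 532575944704, 0, 0⟩ ⟨272953761595392, 0, 8521215115264, 0, 0, 0⟩ ⟨117928963866624, 0, -1062366871552, 182032793600, 0, 0⟩ :=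
  mC_good H_ok M9.k LB.nil (LC.cons g7 (LC.cons g6 LC.nil))

theorem g10 : CGood (KS (.ex 7) (.iv 9 0) (.iv 9 0)) H.k ⟨253600191109860, 0, 0, 0, 0, 8⟩ ⟨276149217263616, 0, 0, 1065151889408, 0, 0⟩ ⟨275084065374208, 0, 2130303778816, 0, 0, 0⟩ ⟨124779000496128, 0, -271589572608, 366414397440, 0, 0⟩ :=
  mC_good H_ok M10.k LB.nil LC.nil

theorem g11 : CGood (KS (.ex 7) (.iv 9 0) (.iv 9 0)) H.k ⟨253600191109860, 0, 0, 0, 0, 8⟩ ⟨276149217263616, 0, 0, 1065151889408, 0, 0⟩ ⟨277214369153024, 0, 4260607557632, 0, 0, 0⟩ ⟨118294606512128, 0, -522476060672, 357908348928, 0, 0⟩ :=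
  mC_good H_ok M11.k LB.nil (LC.cons g10 LC.nil)

theorem g12 : CGood (KS (.ex 7) (.iv 9 0) (.iv 9 0)) H.k ⟨253600191109860, 0, 0, 0, 0, 8⟩ ⟨274018913484800, 0, 0, 1065151889408, 0, 0⟩ ⟨272953761595392, 0, 8521215115264, 0, 0, 0⟩ ⟨112811223023616, 0, -1028829216768, 360087289856, 0, 0⟩ :=
  mC_good H_ok M12.k LB.nil (LC.cons g9 (LC.cons g8 LC.nil))

theorem g13 : CGood (KS (.ex 7) (.iv 9 0) (.iv 9 0)) H.k ⟨253600191109860, 0, 0, 0, 0, 8⟩ ⟨278279521042432, 0, 0, 1065151889408, 0, 0⟩ ⟨275084065374208, 0, 2130303778816, 0, 0, 0⟩ ⟨125219603742720, 0, -289742520320, 378208780288, 0, 0⟩ :=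
  mC_good H_ok M13.k LB.nil LC.nil

theorem g14 : CGood (KS (.ex 7) (.iv 9 0) (.iv 9 0)) H.k ⟨253600191109860, 0, 0, 0, 0, 8⟩ ⟨278279521042432, 0, 0, 1065151889408, 0, 0⟩ ⟨279344672931840, 0, 2130303778816, 0, 0, 0⟩ ⟨122914028388352, 0, -278518562816, 368998088704, 0, 0⟩ :=
  mC_good H_ok M14.k LB.nil LC.nil

theorem g15 : CGood (KS (.ex 7) (.iv 9 0) (.iv 9 0)) H.k ⟨253600191109860, 0, 0, 0, 0, 8⟩ ⟨279877248876544, 0, 0, 532575944704, 0, 0⟩ ⟨279344672931840, 0, 2130303778816, 0, 0, 0⟩ ⟨125641013854208, 0, -280783486976, 184381603840, 0, 0⟩ :=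
  mC_good H_ok M15.k LB.nil LC.nil

theorem g16 : CGood (KS (.ex 7) (.iv 9 0) (.iv 9 0)) H.k ⟨253600191109860, 0, 0, 0, 0, 8⟩ ⟨280409824821248, 0, 0, 1065151889408, 0, 0⟩ ⟨279344672931840, 0, 2130303778816, 0, 0, 0⟩ ⟨125286444171264, 0, -285346889728, 371799883776, 0, 0⟩ :=
  mC_good H_ok M16.k LB.nil (LC.cons g15 LC.nil)

theorem g17 : CGood (KS (.ex 7) (.iv 9 0) (.iv 9 0)) H.k ⟨253600191109860, 0, 0, 0, 0, 8⟩ ⟨280409824821248, 0, 0, 1065151889408, 0, 0⟩ ⟨277214369153024, 0, 4260607557632, 0, 0, 0⟩ ⟨119582811488256, 0, -575374622720, 375054663680, 0, 0⟩ :=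
  mC_good H_ok M17.k LB.nil (LC.cons g16 LC.nil)

theorem g18 : CGood (KS (.ex 7) (.iv 9 0) (.iv 9 0)) H.k ⟨253600191109860, 0, 0, 0, 0, 8⟩ ⟨279344672931840, 0, 0, 2130303778816, 0, 0⟩ ⟨277214369153024, 0, 4260607557632, 0, 0, 0⟩ ⟨118205653712896, 0, -575374622720, 750109327360, 0, 0⟩ :=
  mC_good H_ok M18.k LB.nil (LC.cons g13 (LC.cons g14 (LC.cons g17 LC.nil)))

theorem g19 : CGood (KS (.ex 7) (.iv 9 0) (.iv 9 0)) H.k ⟨253600191109860, 0, 0, 0, 0, 8⟩ ⟨268693154037760, 0, 0, 4260607557632, 0, 0⟩ ⟨272953761595392, 0, 8521215115264, 0, 0, 0⟩ ⟨111010786574336, 0, -1028829216768, 1440349159424, 0, 0⟩ :=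
  mC_good H_ok M19.k LB.nil (LC.cons g4 (LC.cons g2 (LC.cons g3 LC.nil)))

theorem g20 : CGood (KS (.ex 7) (.iv 9 0) (.iv 9 0)) H.k ⟨253600191109860, 0, 0, 0, 0, 8⟩ ⟨272953761595392, 0, 0, 8521215115264, 0, 0⟩ ⟨272953761595392, 0, 8521215115264, 0, 0, 0⟩ ⟨110666241277952, 0, -1028829216768, 2880698318848, 0, 0⟩ :=
  mC_good H_ok M20.k LB.nil (LC.cons g19 (LC.cons g12 (LC.cons g11 (LC.cons g18 LC.nil))))

theorem g21 : CGood (KS (.ex 7) (.iv 9 0) (.iv 9 0)) H.k ⟨253600191109860, 0, 0, 0, 0, 8⟩ ⟨272953761595392, 0, 0, 8521215115264, 0, 0⟩ ⟨272953761595392, 0, 8521215115264, 0, 0, 0⟩ ⟨48255501074432, 0, -1028829216768, 2880698318848, 0, 0⟩ :=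
  mC_good H_ok M21.k LB.nil (LC.cons g20 LC.nil)

theorem g22 : CGood (KS (.ex 7) (.iv 9 0) (.iv 9 0)) H.k ⟨253600191109860, 0, 0, 0, 0, 8⟩ ⟨272953761595392, 0, 0, 8521215115264, 0, 0⟩ ⟨272953761595392, 0, 8521215115264, 0, 0, 0⟩ ⟨0, 0, 0, 0, 0, 0⟩ :=
  mC_good H_ok M22.k LB.nil (LC.cons g21 LC.nil)

theorem done : Done (KS (.ex 7) (.iv 9 0) (.iv 9 0)) := fin (by decide +kernel) g22

end Pool.Agent.Work.MP_88b7aa_gt.D.C799
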